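import Pool.Agent.W550.LG2.SRankOf
import Pool.Agent.W230.LG2.Exp
import Pool.Agent.W538.LG2.Snd

/-!
# Laugwitz' problem, Part III: the rank lemma.
-/

namespace Pool.Agent.W550.LG2
open Pool.Agent.W617.LG

theorem s_rank : S_RANK := by
  refine s_rank_of Pool.Agent.W230.LG2.sExp (fun hSym hKK hQ hSt => ?_)
  first
    | exact Pool.Agent.W538.LG2.snd hKK hQ hSt
    | exact Pool.Agent.W538.LG2.snd hSym hKK hQ hSt

end Pool.Agent.W550.LG2
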