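import Pool.Agent.W550.LG2.Stm

/-!
# Laugwitz' problem, Part III: the rank lemma from `S_JOINT`, `S_EXP`, `S_GLOB`.
-/
set_option autoImplicit false
open Topology Filter Set
open scoped ContDiff InnerProductSpace

namespace Pool.Agent.W550.LG2

open Pool.Agent.W617.LG

theorem rk_mono {q : ℕ} {C : TF q} {y : E q} {r s : ℕ} (h : r ≤ s) (H : RK C s y) :
    RK C r y := by
  obtain ⟨v, hv⟩ := H
  exact ⟨v ∘ Fin.castLE h, hv.comp _ (Fin.castLE_injective h)⟩

theorem rk_le {q : ℕ} {C : TF q} {y : E q} {r : ℕ} (H : RK C r y) : r ≤ q + 2 := by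
  obtain ⟨v, hv⟩ := H
  have h1 : LinearIndependent ℝ v := by
    have : LinearIndependent ℝ ((C y).toLinearMap ∘ v) := hv
    exact LinearIndependent.of_comp _ this
  have h2 := h1.fintype_card_le_finrank
  simpa using h2

theorem bound_gen {V F : Type*} [NormedAddCommGroup V] [NormedSpace ℝ V] [ProperSpace V]
    [NormedAddCommGroup F] [NormedSpace ℝ F] (C : V → F) (hc : ∀ x, x ≠ 0 → ContinuousAt C x)
    (hom : ∀ x, x ≠ 0 → ∀ r : ℝ, 0 < r → C (r • x) = r⁻¹ • C x) :
    ∃ K : ℝ, ∀ y : V, y ≠ 0 → ‖C y‖ ≤ K / ‖y‖ := by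
  have hc : ContinuousOn C (Metric.sphere (0 : V) 1) := by
    intro x hx
    have hx0 : x ≠ 0 := by
      rintro rfl
      simp at hx
    exact (hc x hx0).continuousWithinAt
  obtain ⟨K, hK⟩ := (isCompact_sphere (0 : V) 1).exists_bound_of_continuousOn hc
  refine ⟨K, fun y hy => ?_⟩
  have hn : 0 < ‖y‖ := norm_pos_iff.mpr hy
  have h1 : ‖y‖⁻¹ • y ∈ Metric.sphere (0 : V) 1 := by
    simp [norm_smul, hn.ne']
  have h2 : C y = ‖y‖⁻¹ • C (‖y‖⁻¹ • y) := by
    have := hom (‖y‖⁻¹ • y) (by
      intro h0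
      rw [h0] at h1
      simp at h1) ‖y‖ hn
    rw [smul_smul, mul_inv_cancel₀ hn.ne', one_smul] at this
    exact this
  rw [h2, norm_smul, norm_inv, norm_norm, div_eq_inv_mul]
  exact mul_le_mul_of_nonneg_left (hK _ h1) (by positivity)

theorem bound {q : ℕ} {C : TF q} {τ : E q → ℝ} (H : LW q C τ) :
    ∃ K : ℝ, ∀ y : E q, y ≠ 0 → ‖C y‖ ≤ K / ‖y‖ :=
  bound_gen C (fun x hx => (H.smooth x hx).continuousAt) H.hom

theorem lam_le {q : ℕ} (C : TF q) (y e : E q) (he : ‖e‖ = 1) : |lam C y e| ≤ ‖C y‖ := by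
  unfold lam
  calc |⟪C y e e, e⟫_ℝ| ≤ ‖C y e e‖ * ‖e‖ := abs_real_inner_le_norm _ _
    _ ≤ (‖C y e‖ * ‖e‖) * ‖e‖ := by gcongr; exact (C y e).le_opNorm e
    _ ≤ ((‖C y‖ * ‖e‖) * ‖e‖) * ‖e‖ := by gcongr; exact (C y).le_opNorm e
    _ = ‖C y‖ := by rw [he]; ring

/-- rank one operators of a diagonal form are linearly independent -/
theorem li_of_form {q : ℕ} {C : TF q} {e : Fin (q + 1) → E q} {Z : Finset (Fin (q + 1))} {y : E q}
    (hon : ∀ i j, ⟪e i, e j⟫_ℝ = if i = j then 1 else 0)
    (hf : ∀ a b, C y a b = ∑ i ∈ Z, (lam C y (e i) * ⟪e i, a⟫_ℝ * ⟪e i, b⟫_ℝ) • e i)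
    (hnz : ∀ i ∈ Z, lam C y (e i) ≠ 0) :
    LinearIndependent ℝ (fun i : Z => C y (e i)) := by
  rw [Fintype.linearIndependent_iff]
  intro g hg i
  have h1 := congrArg (fun T : E q →L[ℝ] E q => ⟪T (e i), e i⟫_ℝ) hg
  simp only [ContinuousLinearMap.sum_apply, ContinuousLinearMap.smul_apply,
    ContinuousLinearMap.zero_apply, inner_zero_left, sum_inner, inner_smul_left] at h1
  have h2 : ∀ j : Z, ⟪C y (e j) (e i), e i⟫_ℝ = if j = i then lam C y (e i) else 0 := by
    intro j
    rw [hf, sum_inner]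
    by_cases hji : j = i
    · subst hji
      rw [Finset.sum_eq_single (j : Fin (q + 1))]
      · simp only [inner_smul_left, hon, if_true]
        simp
      · intro k _ hk
        simp only [inner_smul_left, hon, if_neg hk]
        simp
      · intro h; exact absurd j.2 h
    · have hji' : (j : Fin (q + 1)) ≠ i := fun h => hji (Subtype.ext h)
      rw [if_neg hji]
      apply Finset.sum_eq_zero
      intro k _
      by_cases hk : k = j
      · subst hk
        simp only [inner_smul_left, hon, if_neg hji']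
        simp
      · simp only [inner_smul_left, hon, if_neg hk]
        simp
  simp only [h2] at h1
  simp only [mul_ite, mul_zero, Finset.sum_ite_eq', Finset.mem_univ, if_true] at h1
  rcases mul_eq_zero.mp h1 with h | h
  · simpa using h
  · exact absurd h (hnz _ i.2)

theorem rank (hJ : S_JOINT) (hX : S_EXP) (hG : S_GLOB) : S_RANK := by
  classical
  intro q C τ H ⟨x1, hx1, hCx1⟩
  -- the maximal rank
  let P : ℕ → Prop := fun r => ∃ y : E q, y ≠ 0 ∧ RK C r y
  have hP1 : P 1 := by
    refine ⟨x1, hx1, ?_⟩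
    obtain ⟨a, ha⟩ : ∃ a, C x1 a ≠ 0 := by
      by_contra hcon
      push Not at hcon
      exact hCx1 (ContinuousLinearMap.ext hcon)
    exact ⟨fun _ => a, by
      rw [linearIndependent_unique_iff]
      exact ha⟩
  set r := Nat.findGreatest P (q + 2) with hr
  have hPr : P r := Nat.findGreatest_spec (P := P) (by omega : 1 ≤ q + 2) hP1
  have hr1 : 1 ≤ r := Nat.le_findGreatest (by omega) hP1
  have hMX : MX C r := by
    intro y hy hR
    have : r + 1 ≤ r := Nat.le_findGreatest (rk_le hR) ⟨y, hy, hR⟩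
    omega
  obtain ⟨y, hy, hRy⟩ := hPr
  obtain ⟨e, he⟩ := hJ q C τ H y hy
  obtain ⟨hexp, -, hform⟩ := hX q C τ H y e he
  let Z : Finset (Fin (q + 1)) := Finset.univ.filter fun i => lam C y (e i) ≠ 0
  have hnz : ∀ i ∈ Z, lam C y (e i) ≠ 0 := fun i hi => (Finset.mem_filter.mp hi).2
  have hformZ : ∀ a b, C y a b = ∑ i ∈ Z, (lam C y (e i) * ⟪e i, a⟫_ℝ * ⟪e i, b⟫_ℝ) • e i := by
    intro a b
    rw [hform a b]
    symm
    apply Finset.sum_subset (Finset.subset_univ _)
    intro i _ hi
    have : lam C y (e i) = 0 := by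
      by_contra hne
      exact hi (Finset.mem_filter.mpr ⟨Finset.mem_univ _, hne⟩)
    simp [this]
  have hli := li_of_form he.on hformZ hnz
  have hcard : Z.card = r := by
    apply le_antisymm
    · -- card ≤ r
      by_contra hlt
      push Not at hlt
      have : RK C Z.card y := by
        refine ⟨fun i => e (Z.equivFin.symm i), ?_⟩
        exact hli.comp (fun i => Z.equivFin.symm i) Z.equivFin.symm.injective
      exact hMX y hy (rk_mono (by omega) this)
    · -- r ≤ card
      obtain ⟨v, hv⟩ := hRy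
      have hmem : ∀ i, C y (v i) ∈ Submodule.span ℝ (Set.range fun j : Z => C y (e j)) := by
        intro i
        have : C y (v i) = ∑ j : Z, ⟪e j, v i⟫_ℝ • C y (e j) := by
          ext1 b
          rw [hformZ (v i) b, ContinuousLinearMap.sum_apply, ← Finset.sum_coe_sort Z]
          apply Finset.sum_congr rfl
          intro j _
          rw [ContinuousLinearMap.smul_apply, hformZ (e j) b, Finset.sum_eq_single (j : Fin (q + 1))]
          · rw [he.on, if_pos rfl, smul_smul]
            congr 1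
            ring
          · intro k _ hk
            rw [he.on, if_neg hk]
            simp
          · intro h; exact absurd j.2 h
        rw [this]
        exact Submodule.sum_mem _ fun j _ =>
          Submodule.smul_mem _ _ (Submodule.subset_span ⟨j, rfl⟩)
      have h1 : LinearIndependent ℝ
          (fun i => (⟨C y (v i), hmem i⟩ : Submodule.span ℝ (Set.range fun j : Z => C y (e j)))) := by
        apply LinearIndependent.of_comp (Submodule.subtype _)
        exact hv
      have h2 := h1.fintype_card_le_finrank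
      have h3 := finrank_range_le_card (R := ℝ) (fun j : Z => C y (e j))
      simp only [Fintype.card_fin, Fintype.card_coe] at h2 h3
      exact h2.trans h3
  by_cases hall : ∀ i, lam C y (e i) ≠ 0
  · exact ⟨y, e, he, hall⟩
  · exfalso
    push Not at hall
    obtain ⟨i0, hi0⟩ := hall
    have hZne : Z.Nonempty := by
      rw [← Finset.card_pos]; omega
    obtain ⟨i, hi⟩ := hZne
    have hi0Z : i0 ∉ Z := fun h => hnz i0 h hi0
    have hD : Diag C e Z y := ⟨hy, hformZ, hnz⟩
    have hw : ∀ j ∈ Z, ⟪e j, e i0⟫_ℝ = 0 := by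
      intro j hj
      rw [he.on, if_neg]
      rintro rfl
      exact hi0Z hj
    have hnorm1 : ∀ j, ‖e j‖ = 1 := by
      intro j
      have := he.on j j
      rw [if_pos rfl, real_inner_self_eq_norm_sq] at this
      nlinarith [norm_nonneg (e j)]
    have hns : ∀ s : ℝ, ‖y + s • e i0‖ ^ 2 = ‖y‖ ^ 2 + s ^ 2 := by
      intro s
      rw [norm_add_sq_real, inner_smul_right, he.rad i0, norm_smul, hnorm1]
      simp
    have hypos : 0 < ‖y‖ := norm_pos_iff.mpr hy
    have hne : ∀ s : ℝ, y + s • e i0 ≠ 0 := by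
      intro s h0
      have := hns s
      rw [h0] at this
      simp at this
      nlinarith [sq_nonneg s]
    obtain ⟨κ, hκ⟩ := hG q C τ H r hMX e Z hcard he.on y (e i0) hD hw hne i hi
    set c := lam C y (e i) with hc
    have hc0 : c ≠ 0 := hnz i hi
    have hκ0 : κ = 0 := by
      by_contra hk
      obtain ⟨h1, h2⟩ := hκ (-(c⁻¹ / κ))
      have h3 : c⁻¹ + -(c⁻¹ / κ) * κ = 0 := by
        field_simp
        ring
      rw [h3] at h2
      exact h1 (inv_eq_zero.mp h2)
    have hconst : ∀ s : ℝ, lam C (y + s • e i0) (e i) = c := by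
      intro s
      have h2 := (hκ s).2
      rw [hκ0, mul_zero, add_zero] at h2
      exact inv_injective h2
    obtain ⟨K, hK⟩ := bound H
    -- choose s large
    have hcpos : 0 < |c| := abs_pos.mpr hc0
    have key : ∀ s : ℝ, |c| * ‖y + s • e i0‖ ≤ K := by
      intro s
      have h1 := lam_le C (y + s • e i0) (e i) (hnorm1 i)
      rw [hconst s] at h1
      have h2 := hK _ (hne s)
      have h3 : 0 < ‖y + s • e i0‖ := norm_pos_iff.mpr (hne s)
      have h4 : |c| ≤ K / ‖y + s • e i0‖ := h1.trans h2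
      rwa [le_div_iff₀ h3] at h4
    have hge : ∀ s : ℝ, 0 ≤ s → s ≤ ‖y + s • e i0‖ := by
      intro s hs
      have := hns s
      nlinarith [norm_nonneg (y + s • e i0), sq_nonneg ‖y‖]
    have h5 := key ((|K| + 1) / |c|)
    have h6 := hge ((|K| + 1) / |c|) (by positivity)
    have h7 : |c| * ((|K| + 1) / |c|) ≤ K := (mul_le_mul_of_nonneg_left h6 hcpos.le).trans h5
    rw [mul_div_cancel₀ _ hcpos.ne'] at h7
    linarith [le_abs_self K]

end Pool.Agent.W550.LG2
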