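import Pool.Agent.W550.LG2.Rank
import Pool.Agent.W3.LG2.Joint
import Pool.Agent.W961.LG2.Sym
import Pool.Agent.W983.LG2.Ker
import Pool.Agent.W958.LG2.KK
import Pool.Agent.W617.LG.Loc
import Pool.Agent.W577.LG2.Line
import Pool.Agent.W617.LG.Quad
import Pool.Agent.W227.LG2.STEP
import Pool.Agent.W196.LG2.Glob

/-!
# Laugwitz' problem, Part III: assembly up to `S_EXP` and LG2-SND.
-/

namespace Pool.Agent.W550.LG2
open Pool.Agent.W617.LG

theorem s_kk : S_KK := Pool.Agent.W958.LG2KK.kk Pool.Agent.W961.LG2.sym Pool.Agent.W983.LG2.s_ker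

theorem s_loc : S_LOC := Pool.Agent.W617.LG.loc Pool.Agent.W983.LG2.s_ker s_kk

theorem s_line : S_LINE := by
  first
    | exact Pool.Agent.W577.LG2.line Pool.Agent.W961.LG2.sym Pool.Agent.W983.LG2.s_ker s_kk s_loc
    | exact Pool.Agent.W577.LG2.line Pool.Agent.W983.LG2.s_ker s_loc
    | exact Pool.Agent.W577.LG2.line Pool.Agent.W983.LG2.s_ker s_kk s_loc
    | exact Pool.Agent.W577.LG2.line s_loc

theorem s_quad : S_QUAD := Pool.Agent.W617.LG.quad Pool.Agent.W961.LG2.sym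

theorem s_step : S_STEP := Pool.Agent.W227.LG2.step s_line

theorem s_rank_of (hX : S_EXP) (hS : S_SYM → S_KK → S_QUAD → S_STEP → S_SND) : S_RANK :=
  rank Pool.Agent.W3.LG2.joint hX
    (Pool.Agent.W196.LG2.t_GLOB s_step (hS Pool.Agent.W961.LG2.sym s_kk s_quad s_step))

end Pool.Agent.W550.LG2
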