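import Pool.Agent.W617.LG.Defs

/-!
# Laugwitz' problem, Part III (rank lemma): statements of the parts.

The goal is `S_RANK` of `Pool.Agent.W617.LG.Defs`.
-/
set_option autoImplicit false
open Topology Filter Set
open scoped ContDiff InnerProductSpace

namespace Pool.Agent.W550.LG2

open Pool.Agent.W617.LG

/-! ## Algebra and symmetries -/

/-- LG2-JOINT: adapted frames exist at every point. -/
def S_JOINT : Prop := ∀ (q : ℕ) (C : TF q) (τ : E q → ℝ), LW q C τ → ∀ x, x ≠ 0 →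
  ∃ e : Fin (q + 1) → E q, AF C x e

/-- LG2-EXP: expansion, trace and the form of `C` in an adapted frame. -/
def S_EXP : Prop := ∀ (q : ℕ) (C : TF q) (τ : E q → ℝ), LW q C τ →
  ∀ (x : E q) (e : Fin (q + 1) → E q), AF C x e →
  (∀ v : E q, v = (⟪x, v⟫_ℝ / ‖x‖ ^ 2) • x + ∑ i, ⟪e i, v⟫_ℝ • e i) ∧
  (∀ A : E q →L[ℝ] E q, LinearMap.trace ℝ (E q) A.toLinearMap
    = ⟪A x, x⟫_ℝ / ‖x‖ ^ 2 + ∑ i, ⟪A (e i), e i⟫_ℝ) ∧
  (∀ a b : E q, C x a b = ∑ i, (lam C x (e i) * ⟪e i, a⟫_ℝ * ⟪e i, b⟫_ℝ) • e i)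

/-- second derivative of `C`: derivative in direction `u` of `(D_v C)(w, z)` -/
noncomputable def D2 {q : ℕ} (C : TF q) (x u v w z : E q) : E q :=
  fderiv ℝ (fun y => fderiv ℝ C y v w z) x u

/-- LG2-SYM: symmetries of the first and second derivative of `C`. -/
def S_SYM : Prop := ∀ (q : ℕ) (C : TF q) (τ : E q → ℝ), LW q C τ → ∀ x, x ≠ 0 →
  ∀ u v w z : E q,
  fderiv ℝ C x u v w = fderiv ℝ C x v u w ∧
  fderiv ℝ C x u v w = fderiv ℝ C x u w v ∧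
  ⟪fderiv ℝ C x u v w, z⟫_ℝ = ⟪fderiv ℝ C x u v z, w⟫_ℝ ∧
  D2 C x u v w z = D2 C x v u w z ∧ D2 C x u v w z = D2 C x u w v z ∧
  D2 C x u v w z = D2 C x u v z w

/-! ## Part III -/

/-- the operators `C y a` span a space of dimension at least `r` -/
def RK {q : ℕ} (C : TF q) (r : ℕ) (y : E q) : Prop :=
  ∃ v : Fin r → E q, LinearIndependent ℝ (fun i => C y (v i))

/-- the rank is at most `r` everywhere -/
def MX {q : ℕ} (C : TF q) (r : ℕ) : Prop := ∀ y : E q, y ≠ 0 → ¬ RK C (r + 1) y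

/-- LG2-KER: at a point of maximal rank the derivative maps the kernel into the range. -/
def S_KER : Prop := ∀ (q : ℕ) (C : TF q) (τ : E q → ℝ), LW q C τ → ∀ r : ℕ, MX C r →
  ∀ (y : E q) (v : Fin r → E q), y ≠ 0 → LinearIndependent ℝ (fun i => C y (v i)) →
  (∀ a, C y a ∈ Submodule.span ℝ (range fun i => C y (v i))) ∧
  (∀ a w, C y w = 0 → fderiv ℝ C y a w ∈ Submodule.span ℝ (range fun i => C y (v i)))

/-- LG2-KK: the derivative vanishes on pairs of vectors of the kernel. -/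
def S_KK : Prop := ∀ (q : ℕ) (C : TF q) (τ : E q → ℝ), LW q C τ → ∀ r : ℕ, MX C r →
  ∀ y : E q, y ≠ 0 → RK C r y → ∀ w w', C y w = 0 → C y w' = 0 →
  fderiv ℝ C y w w' = 0 ∧ ∀ a, fderiv ℝ C y a w w' = 0

/-- LG2-LOC: local bounds near a point of maximal rank. -/
def S_LOC : Prop := ∀ (q : ℕ) (C : TF q) (τ : E q → ℝ), LW q C τ → ∀ r : ℕ, MX C r →
  ∀ y : E q, y ≠ 0 → RK C r y → ∃ L : ℝ, 0 < L ∧ ∀ᶠ y' in 𝓝 y,
  (∀ w, ‖fderiv ℝ C y' w w‖ ≤ L * ‖w‖ * ‖C y' w‖) ∧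
  (∀ w, C y' w = 0 → ∀ a, ∃ b, fderiv ℝ C y' w a = C y' b ∧ ‖b‖ ≤ L * ‖w‖ * ‖a‖)

/-- LG2-LINE: along a line in the direction of a kernel vector `w`, the vector `w` stays in the
kernel and the range does not change. -/
def S_LINE : Prop := ∀ (q : ℕ) (C : TF q) (τ : E q → ℝ), LW q C τ → ∀ r : ℕ, MX C r →
  ∀ (y : E q) (v : Fin r → E q), y ≠ 0 → LinearIndependent ℝ (fun i => C y (v i)) →
  ∀ w, C y w = 0 → ∀ᶠ s in 𝓝 (0 : ℝ), C (y + s • w) w = 0 ∧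
    ∀ a, C (y + s • w) a ∈ Submodule.span ℝ (range fun i => C y (v i))

/-- LG2-QUAD: the quadratic identity. -/
def S_QUAD : Prop := ∀ (q : ℕ) (C : TF q) (τ : E q → ℝ), LW q C τ → ∀ x, x ≠ 0 →
  ∀ w, C x w = 0 → fderiv ℝ C x w w = 0 → ∀ z j : E q,
  (2 : ℝ) • fderiv ℝ C x w z (fderiv ℝ C x w z j) = C x j (D2 C x w w z z)

/-- `C` is diagonal at `y` in the fixed orthonormal family `e i`, `i ∈ Z`, with nonzero entries -/
structure Diag {q : ℕ} (C : TF q) (e : Fin (q + 1) → E q) (Z : Finset (Fin (q + 1)))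
    (y : E q) : Prop where
  ne : y ≠ 0
  form : ∀ a b, C y a b = ∑ i ∈ Z, (lam C y (e i) * ⟪e i, a⟫_ℝ * ⟪e i, b⟫_ℝ) • e i
  nz : ∀ i ∈ Z, lam C y (e i) ≠ 0

/-- LG2-STEP: the diagonal form propagates along kernel lines. -/
def S_STEP : Prop := ∀ (q : ℕ) (C : TF q) (τ : E q → ℝ), LW q C τ → ∀ r : ℕ, MX C r →
  ∀ (e : Fin (q + 1) → E q) (Z : Finset (Fin (q + 1))), Z.card = r →
  (∀ i j, ⟪e i, e j⟫_ℝ = if i = j then 1 else 0) →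
  ∀ y w, Diag C e Z y → (∀ i ∈ Z, ⟪e i, w⟫_ℝ = 0) → ∀ᶠ s in 𝓝 (0 : ℝ), Diag C e Z (y + s • w)

/-- LG2-SND: the inverses of the diagonal entries are locally affine along kernel lines. -/
def S_SND : Prop := ∀ (q : ℕ) (C : TF q) (τ : E q → ℝ), LW q C τ → ∀ r : ℕ, MX C r →
  ∀ (e : Fin (q + 1) → E q) (Z : Finset (Fin (q + 1))), Z.card = r →
  (∀ i j, ⟪e i, e j⟫_ℝ = if i = j then 1 else 0) →
  ∀ y w, Diag C e Z y → (∀ i ∈ Z, ⟪e i, w⟫_ℝ = 0) → ∀ i ∈ Z, ∃ κ : ℝ,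
    ∀ᶠ s in 𝓝 (0 : ℝ), (lam C (y + s • w) (e i))⁻¹ = (lam C y (e i))⁻¹ + s * κ

/-- LG2-GLOB: the whole line. -/
def S_GLOB : Prop := ∀ (q : ℕ) (C : TF q) (τ : E q → ℝ), LW q C τ → ∀ r : ℕ, MX C r →
  ∀ (e : Fin (q + 1) → E q) (Z : Finset (Fin (q + 1))), Z.card = r →
  (∀ i j, ⟪e i, e j⟫_ℝ = if i = j then 1 else 0) →
  ∀ x₀ w, Diag C e Z x₀ → (∀ i ∈ Z, ⟪e i, w⟫_ℝ = 0) → (∀ s : ℝ, x₀ + s • w ≠ 0) →
  ∀ i ∈ Z, ∃ κ : ℝ, ∀ s : ℝ, lam C (x₀ + s • w) (e i) ≠ 0 ∧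
    (lam C (x₀ + s • w) (e i))⁻¹ = (lam C x₀ (e i))⁻¹ + s * κ

end Pool.Agent.W550.LG2
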